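import Mathlib

/-!
A monotone class of graphs whose speed is not MC-finite.
-/

namespace Pool.Agent.Results.MP_337eac_co.MonotoneNotMCFinite

open SimpleGraph Finset

/-- A class of finite graphs is given by its members on the vertex sets `Fin n`. -/
abbrev GraphClass := (n : ℕ) → Set (SimpleGraph (Fin n))

/-- Monotone classes: closed under isomorphism and under taking (not necessarily induced)
subgraphs. -/
def MonotoneClass (C : GraphClass) : Prop :=
  ∀ (m n : ℕ) (H : SimpleGraph (Fin m)) (G : SimpleGraph (Fin n)), H ⊑ G → G ∈ C n → H ∈ C m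

/-- The speed: the number of labelled graphs on `n` vertices in the class. -/
noncomputable def Sp (C : GraphClass) (n : ℕ) : ℕ := Nat.card (C n)

/-- MC-finite sequences. -/
def MCFinite (s : ℕ → ℕ) : Prop :=
  ∀ m : ℕ, 1 ≤ m → ∃ r : ℕ, 1 ≤ r ∧ ∃ p : ℕ, 1 ≤ p ∧ ∃ α : ℕ → ℤ, ∀ n, r ≤ n →
    (s (n + p) : ℤ) ≡ ∑ i ∈ range p, α i * (s (n + i) : ℤ) [ZMOD m]

/-! ### Ultimate periodicity -/

theorem periodic_of_mcFinite {s : ℕ → ℕ} (h : MCFinite s) :
    ∃ N q : ℕ, 1 ≤ q ∧ ∀ n, N ≤ n → ((s (n + q) : ℕ) : ZMod 2) = ((s n : ℕ) : ZMod 2) := by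
  obtain ⟨r, -, p, hp, α, hα⟩ := h 2 (by norm_num)
  have hrec : ∀ n, r ≤ n → ((s (n + p) : ℕ) : ZMod 2) =
      ∑ i ∈ range p, (α i : ZMod 2) * ((s (n + i) : ℕ) : ZMod 2) := by
    intro n hn
    have h1 := (ZMod.intCast_eq_intCast_iff _ _ 2).2 (hα n hn)
    push_cast at h1
    exact h1
  let st : ℕ → (Fin p → ZMod 2) := fun n i => ((s (r + n + i) : ℕ) : ZMod 2)
  obtain ⟨a, b, hab, hst⟩ : ∃ a b, a < b ∧ st a = st b := by
    obtain ⟨a, b, hne, he⟩ := Finite.exists_ne_map_eq_of_infinite st
    rcases lt_or_gt_of_ne hne with h | h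
    · exact ⟨a, b, h, he⟩
    · exact ⟨b, a, h, he.symm⟩
  have key : ∀ k, ∀ i < p, ((s (r + a + k + i) : ℕ) : ZMod 2) = ((s (r + b + k + i) : ℕ) : ZMod 2) := by
    intro k
    induction k with
    | zero =>
      intro i hi
      exact congrFun hst ⟨i, hi⟩
    | succ k ih =>
      intro i hi
      by_cases hi1 : i + 1 < p
      · have := ih (i + 1) hi1
        rw [show r + a + (k + 1) + i = r + a + k + (i + 1) by ring,
          show r + b + (k + 1) + i = r + b + k + (i + 1) by ring]
        exact this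
      · have hip : i + 1 = p := by omega
        rw [show r + a + (k + 1) + i = r + a + k + (i + 1) by ring,
          show r + b + (k + 1) + i = r + b + k + (i + 1) by ring, hip,
          hrec _ (by omega), hrec _ (by omega)]
        refine sum_congr rfl fun j hj => ?_
        rw [ih j (mem_range.1 hj)]
  refine ⟨r + a, b - a, by omega, fun n hn => ?_⟩
  have := key (n - (r + a)) 0 hp
  rw [show r + a + (n - (r + a)) + 0 = n by omega,
    show r + b + (n - (r + a)) + 0 = n + (b - a) by omega] at this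
  exact this.symm

/-! ### Odd multinomial coefficients -/

theorem odd_choose (m : ℕ) : ∀ j ≤ 2 ^ m - 1, Odd ((2 ^ m - 1).choose j) := by
  intro j
  induction j with
  | zero => intro _; simp
  | succ j ih =>
    intro hj
    have hpos : 0 < 2 ^ m := by positivity
    have h1 : (2 ^ m).choose (j + 1) = (2 ^ m - 1).choose j + (2 ^ m - 1).choose (j + 1) := by
      conv_lhs => rw [show 2 ^ m = (2 ^ m - 1) + 1 by omega]
      rw [Nat.choose_succ_succ]
    have h2 : 2 ∣ (2 ^ m).choose (j + 1) := Nat.prime_two.dvd_choose_pow (by omega) (by omega)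
    rw [h1, ← even_iff_two_dvd] at h2
    have h3 := ih (by omega)
    rw [Nat.even_add'] at h2
    exact h2.1 h3

theorem odd_multinomial (t : ℕ) :
    ∃ c : ℕ, Odd c ∧ (2 ^ t - 1).factorial = c * ∏ i ∈ range t, (2 ^ i).factorial := by
  induction t with
  | zero => exact ⟨1, odd_one, by simp⟩
  | succ t ih =>
    obtain ⟨c, hc, h⟩ := ih
    have hpos : 0 < 2 ^ t := by positivity
    have e1 : 2 ^ (t + 1) - 1 - 2 ^ t = 2 ^ t - 1 := by rw [pow_succ]; omega
    have e2 : 2 ^ t ≤ 2 ^ (t + 1) - 1 := by rw [pow_succ]; omega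
    refine ⟨(2 ^ (t + 1) - 1).choose (2 ^ t) * c, (odd_choose (t + 1) _ e2).mul hc, ?_⟩
    rw [← Nat.choose_mul_factorial_mul_factorial e2, e1, h, prod_range_succ]
    ring

/-! ### The blow-ups of cycles -/

/-- Vertices of the blow-up: the `i`-th class has `2^i` vertices. -/
abbrev VV (t : ℕ) := Σ i : Fin t, Fin (2 ^ (i : ℕ))

/-- The blow-up of the cycle `C_t` by independent sets of sizes `1, 2, 4, ..., 2^(t-1)`. -/
def HH (t : ℕ) : SimpleGraph (VV t) := (cycleGraph t).comap Sigma.fst

theorem card_VV (t : ℕ) : Fintype.card (VV t) = 2 ^ t - 1 := by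
  rw [Fintype.card_sigma]
  simp only [Fintype.card_fin]
  rw [Fin.sum_univ_eq_sum_range (fun i => 2 ^ i) t]
  exact Nat.geomSum_eq (by norm_num) t |>.trans (by simp)

/-- The action of permutations on graphs. -/
@[instance_reducible] def act (V : Type) : MulAction (Equiv.Perm V) (SimpleGraph V) where
  smul g G := G.comap (g⁻¹ : Equiv.Perm V)
  one_smul G := by
    ext a b
    exact Iff.rfl
  mul_smul g h G := by
    ext a b
    show G.Adj ((g * h)⁻¹ a) ((g * h)⁻¹ b) ↔ G.Adj (h⁻¹ (g⁻¹ a)) (h⁻¹ (g⁻¹ b))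
    rw [mul_inv_rev]
    exact Iff.rfl

theorem orbit_eq {V : Type} (H : SimpleGraph V) :
    letI := act V
    MulAction.orbit (Equiv.Perm V) H = {G : SimpleGraph V | Nonempty (G ≃g H)} := by
  let := act V
  ext G
  constructor
  · rintro ⟨g, rfl⟩
    exact ⟨⟨(g⁻¹ : Equiv.Perm V), Iff.rfl⟩⟩
  · rintro ⟨e⟩
    refine ⟨e.toEquiv⁻¹, ?_⟩
    ext a b
    show H.Adj ((e.toEquiv⁻¹)⁻¹ a) ((e.toEquiv⁻¹)⁻¹ b) ↔ G.Adj a b
    rw [inv_inv]
    exact e.map_adj_iff

theorem odd_orbit (t : ℕ) : Odd (Nat.card {G : SimpleGraph (VV t) // Nonempty (G ≃g HH t)}) := by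
  let := act (VV t)
  have h1 : (MulAction.orbit (Equiv.Perm (VV t)) (HH t)).ncard =
      Nat.card {G : SimpleGraph (VV t) // Nonempty (G ≃g HH t)} := by
    rw [orbit_eq]; rfl
  rw [← h1, ← MulAction.index_stabilizer]
  have h2 := Subgroup.card_mul_index (MulAction.stabilizer (Equiv.Perm (VV t)) (HH t))
  have h3 : Nat.card (∀ i : Fin t, Equiv.Perm (Fin (2 ^ (i : ℕ)))) ∣
      Nat.card (MulAction.stabilizer (Equiv.Perm (VV t)) (HH t)) := by
    let f := (Equiv.Perm.sigmaCongrRightHom (fun i : Fin t => Fin (2 ^ (i : ℕ)))).codRestrict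
      (MulAction.stabilizer (Equiv.Perm (VV t)) (HH t)) (by
        intro σ
        rw [MulAction.mem_stabilizer_iff]
        ext a b
        exact Iff.rfl)
    apply Subgroup.card_dvd_of_injective f
    intro a b hab
    apply Equiv.Perm.sigmaCongrRightHom_injective
    exact congrArg Subtype.val hab
  have h4 : Nat.card (∀ i : Fin t, Equiv.Perm (Fin (2 ^ (i : ℕ)))) =
      ∏ i ∈ range t, (2 ^ i).factorial := by
    rw [Nat.card_pi]
    simp only [Nat.card_eq_fintype_card, Fintype.card_perm, Fintype.card_fin]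
    exact Fin.prod_univ_eq_prod_range (fun i => (2 ^ i).factorial) t
  have h5 : Nat.card (Equiv.Perm (VV t)) = (2 ^ t - 1).factorial := by
    rw [Nat.card_perm, Nat.card_eq_fintype_card, card_VV]
  obtain ⟨c, hc, hc2⟩ := odd_multinomial t
  obtain ⟨s, hs⟩ := h3
  rw [h5, hc2, hs, h4] at h2
  have hpos : 0 < ∏ i ∈ range t, (2 ^ i).factorial := prod_pos fun i _ => Nat.factorial_pos _
  have h6 : s * (MulAction.stabilizer (Equiv.Perm (VV t)) (HH t)).index = c := by
    apply Nat.eq_of_mul_eq_mul_left hpos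
    rw [← mul_assoc, h2, mul_comm]
  rw [← h6] at hc
  exact (Nat.odd_mul.1 hc).2

theorem odd_count {t n : ℕ} (hn : n = 2 ^ t - 1) :
    Odd (Nat.card {G : SimpleGraph (Fin n) // Nonempty (G ≃g HH t)}) := by
  have e : VV t ≃ Fin n := Fintype.equivFinOfCardEq (by rw [card_VV, hn])
  have : Nat.card {G : SimpleGraph (Fin n) // Nonempty (G ≃g HH t)} =
      Nat.card {G : SimpleGraph (VV t) // Nonempty (G ≃g HH t)} := by
    apply Nat.card_congr
    refine Equiv.subtypeEquiv e.simpleGraph.symm ?_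
    intro G
    have hiso : (e.simpleGraph.symm G) ≃g G := ⟨e, Iff.rfl⟩
    exact ⟨fun ⟨f⟩ => ⟨hiso.trans f⟩, fun ⟨f⟩ => ⟨hiso.symm.trans f⟩⟩
  rw [this]
  exact odd_orbit t

/-! ### The antichain property -/

theorem sub_cases {t : ℕ} (a b : Fin t) :
    (b.val ≤ a.val ∧ (a - b).val + b.val = a.val) ∨
      (a.val < b.val ∧ (a - b).val + b.val = t + a.val) := by
  rcases le_or_gt b a with h | h
  · left
    have := Fin.coe_sub_iff_le.2 h
    have h' : b.val ≤ a.val := h
    exact ⟨h', by omega⟩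
  · right
    have := Fin.coe_sub_iff_lt.2 h
    have h' : a.val < b.val := h
    have := b.2
    exact ⟨h', by omega⟩

theorem no_hom {s t : ℕ} (hs : Odd s) (hs3 : 3 ≤ s) (hst : s < t)
    (f : cycleGraph s →g cycleGraph t) : False := by
  -- a missed vertex
  obtain ⟨v, hv⟩ : ∃ v, ∀ i, f i ≠ v := by
    by_contra hno
    push Not at hno
    have hsurj : Function.Surjective f := fun v => hno v
    have := Fintype.card_le_of_surjective _ hsurj
    simp at this
    omega
  have hcol : (cycleGraph s).Colorable 2 := by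
    let c : (cycleGraph s).Coloring Bool := Coloring.mk (fun i => decide (Even (f i - v).val)) (by
      intro a b hab
      have h1 := cycleGraph_adj'.1 (f.map_adj hab)
      have ha := hv a
      have hb := hv b
      rw [Ne, Fin.ext_iff] at ha hb
      have la := (f a).2
      have lb := (f b).2
      have lv := v.2
      have c1 := sub_cases (f a) v
      have c2 := sub_cases (f b) v
      have c3 := sub_cases (f a) (f b)
      have c4 := sub_cases (f b) (f a)
      rw [Ne, decide_eq_decide, Nat.even_iff, Nat.even_iff]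
      omega)
    have := c.colorable
    simpa using this
  have h3 := chromaticNumber_cycleGraph_of_odd s (by omega) hs
  have h2 := hcol.chromaticNumber_le
  rw [h3] at h2
  norm_cast at h2

theorem antichain {s t : ℕ} (hs : Odd s) (hs3 : 3 ≤ s) (h : HH s ⊑ HH t) :
    s = t := by
  obtain ⟨f⟩ := h
  have hcard := Fintype.card_le_of_injective _ f.injective
  rw [card_VV, card_VV] at hcard
  have hle : s ≤ t := by
    by_contra hlt
    have h1 : 2 ^ t < 2 ^ s := Nat.pow_lt_pow_right (by norm_num) (by omega)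
    have h2 : 0 < 2 ^ t := by positivity
    omega
  rcases Nat.eq_or_lt_of_le hle with h | h
  · exact h
  · exfalso
    let g : cycleGraph s →g HH s := ⟨fun i => ⟨i, ⟨0, by positivity⟩⟩, fun {a b} hab => hab⟩
    let k : HH t →g cycleGraph t := ⟨Sigma.fst, fun {a b} hab => hab⟩
    exact no_hom hs hs3 h ((k.comp f.toHom).comp g)

/-- An injective endomorphism of a finite graph reflects adjacency. -/
theorem reflects {V : Type} [Finite V] {A : SimpleGraph V} (φ : Copy A A) {a b : V}
    (h : A.Adj (φ a) (φ b)) : A.Adj a b := by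
  have := Fintype.ofFinite V
  let σ : Equiv.Perm V := Equiv.ofBijective φ (Finite.injective_iff_bijective.1 φ.injective)
  have hσ : ∀ x, σ x = φ x := fun x => rfl
  obtain ⟨k, hk, hk1⟩ := (isOfFinOrder_of_finite σ).exists_pow_eq_one
  have hstep : ∀ (m : ℕ) (x y : V), A.Adj x y → A.Adj ((σ ^ m) x) ((σ ^ m) y) := by
    intro m
    induction m with
    | zero => intro x y h; exact h
    | succ m ih =>
      intro x y h
      rw [pow_succ, Equiv.Perm.mul_apply, Equiv.Perm.mul_apply]
      exact ih _ _ (φ.toHom.map_adj h)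
  have h1 := hstep (k - 1) _ _ h
  have h2 : ∀ x, (σ ^ (k - 1)) (φ x) = x := by
    intro x
    rw [← hσ, ← Equiv.Perm.mul_apply, ← pow_succ, Nat.sub_add_cancel hk, hk1]
    rfl
  rw [h2, h2] at h1
  exact h1

/-- Finite graphs contained in each other are isomorphic. -/
theorem iso_of_contained {V W : Type} [Finite V] [Finite W] {A : SimpleGraph V}
    {B : SimpleGraph W} (h1 : A ⊑ B) (h2 : B ⊑ A) : Nonempty (A ≃g B) := by
  obtain ⟨f⟩ := h1
  obtain ⟨g⟩ := h2
  have := Fintype.ofFinite V
  have := Fintype.ofFinite W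
  have c1 := Fintype.card_le_of_injective _ f.injective
  have c2 := Fintype.card_le_of_injective _ g.injective
  have hbij : Function.Bijective f := by
    rw [Fintype.bijective_iff_injective_and_card]
    exact ⟨f.injective, le_antisymm c1 c2⟩
  refine ⟨⟨Equiv.ofBijective f hbij, ?_⟩⟩
  intro a b
  constructor
  · intro h
    have h3 : A.Adj (g (f a)) (g (f b)) := g.toHom.map_adj h
    exact reflects (g.comp f) h3
  · intro h
    exact f.toHom.map_adj h

/-! ### The two classes -/

/-- Admissible parameters. -/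
def Par (t : ℕ) : Prop := Odd t ∧ 5 ≤ t

/-- Graphs containing no `HH t`. -/
def Base : GraphClass := fun n => {G : SimpleGraph (Fin n) | ∀ t, Par t → ¬ HH t ⊑ G}

/-- Labelled copies of some `HH t`. -/
def Dn : GraphClass := fun n => {G : SimpleGraph (Fin n) | ∃ t, Par t ∧ Nonempty (G ≃g HH t)}

/-- The larger class. -/
def Big : GraphClass := fun n => Base n ∪ Dn n

theorem base_monotone : MonotoneClass Base := by
  intro m n H G hHG hG t ht h
  exact hG t ht (h.trans hHG)

theorem big_monotone : MonotoneClass Big := by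
  intro m n H G hHG hG
  rcases hG with hG | ⟨t, ht, ⟨e⟩⟩
  · exact Or.inl (base_monotone m n H G hHG hG)
  · by_cases hH : H ∈ Base m
    · exact Or.inl hH
    · right
      simp only [Base, Set.mem_ofPred_eq, not_forall, not_not] at hH
      obtain ⟨s, hs, hsH⟩ := hH
      have h1 : H ⊑ HH t := hHG.trans e.isContained
      have h2 : s = t := antichain hs.1 (by have := hs.2; omega) (hsH.trans h1)
      subst h2
      exact ⟨s, hs, iso_of_contained h1 hsH⟩

theorem disj (n : ℕ) : Disjoint (Base n) (Dn n) := by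
  rw [Set.disjoint_left]
  rintro G hG ⟨t, ht, ⟨e⟩⟩
  exact hG t ht e.isContained'

theorem speed_split (n : ℕ) : Sp Big n = Sp Base n + Nat.card (Dn n) := by
  unfold Sp
  have h1 : Nat.card (Base n) = (Base n).ncard := rfl
  have h2 : Nat.card (Dn n) = (Dn n).ncard := rfl
  have h3 : Nat.card (Big n) = (Base n ∪ Dn n).ncard := rfl
  rw [h1, h2, h3]
  exact Set.ncard_union_eq (disj n) (Set.toFinite _) (Set.toFinite _)

theorem card_of_iso {n t : ℕ} {G : SimpleGraph (Fin n)} (e : G ≃g HH t) : n = 2 ^ t - 1 := by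
  have := Fintype.card_congr e.toEquiv
  rwa [Fintype.card_fin, card_VV] at this

theorem pow_inj' {s t : ℕ} (h : 2 ^ s - 1 = 2 ^ t - 1) : s = t := by
  have h1 : 0 < 2 ^ s := by positivity
  have h2 : 0 < 2 ^ t := by positivity
  exact Nat.pow_right_injective (le_refl 2) (by
    show 2 ^ s = 2 ^ t
    omega)

theorem dn_odd {t : ℕ} (ht : Par t) : Odd (Nat.card (Dn (2 ^ t - 1))) := by
  have h : Dn (2 ^ t - 1) = {G : SimpleGraph (Fin (2 ^ t - 1)) | Nonempty (G ≃g HH t)} := by
    ext G
    constructor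
    · rintro ⟨s, -, ⟨e⟩⟩
      have := pow_inj' (card_of_iso e)
      subst this
      exact ⟨e⟩
    · intro h
      exact ⟨t, ht, h⟩
  rw [h]
  exact odd_count rfl

theorem dn_zero {n : ℕ} (hn : ∀ t, n ≠ 2 ^ t - 1) : Nat.card (Dn n) = 0 := by
  have h : Dn n = ∅ := by
    rw [Set.eq_empty_iff_forall_notMem]
    rintro G ⟨t, -, ⟨e⟩⟩
    exact hn t (card_of_iso e)
  rw [h]
  simp

/-- Not both classes have an MC-finite speed. -/
theorem not_both : ¬ (MCFinite (Sp Base) ∧ MCFinite (Sp Big)) := by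
  rintro ⟨h1, h2⟩
  obtain ⟨N1, q1, hq1, h1⟩ := periodic_of_mcFinite h1
  obtain ⟨N2, q2, hq2, h2⟩ := periodic_of_mcFinite h2
  have iter : ∀ (s : ℕ → ℕ) (N q : ℕ), (∀ n, N ≤ n → ((s (n + q) : ℕ) : ZMod 2) =
      ((s n : ℕ) : ZMod 2)) → ∀ k n, N ≤ n → ((s (n + k * q) : ℕ) : ZMod 2) =
      ((s n : ℕ) : ZMod 2) := by
    intro s N q h k
    induction k with
    | zero => intro n _; simp
    | succ k ih =>
      intro n hn
      rw [show n + (k + 1) * q = (n + k * q) + q by ring, h _ (by omega), ih n hn]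
  set q := q1 * q2 with hq
  have hqpos : 1 ≤ q := Nat.mul_pos hq1 hq2
  have d : ∀ n, max N1 N2 ≤ n → ((Nat.card (Dn (n + q)) : ℕ) : ZMod 2) =
      ((Nat.card (Dn n) : ℕ) : ZMod 2) := by
    intro n hn
    have e1 := iter _ _ _ h1 q2 n (le_trans (le_max_left _ _) hn)
    have e2 := iter _ _ _ h2 q1 n (le_trans (le_max_right _ _) hn)
    rw [show n + q2 * q1 = n + q by rw [hq]; ring] at e1
    rw [← hq, speed_split, speed_split] at e2
    push_cast at e2
    rw [e1] at e2
    exact add_left_cancel e2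
  -- a large parameter
  set M := max N1 N2 + q with hM
  let t := 2 * M + 5
  have ht : Par t := ⟨⟨M + 2, by simp only [t]; ring⟩, by simp only [t]; omega⟩
  have hbig : M + 5 < 2 ^ t := by
    have h3 : t < 2 ^ t := Nat.lt_two_pow_self
    simp only [t] at h3 ⊢
    omega
  have e := d (2 ^ t - 1) (by omega)
  have hodd := dn_odd ht
  have hzero : Nat.card (Dn (2 ^ t - 1 + q)) = 0 := by
    apply dn_zero
    intro s hs
    have hpos : 0 < 2 ^ t := by positivity
    have hpos' : 0 < 2 ^ s := by positivity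
    have h4 : 2 ^ t < 2 ^ s := by omega
    have h5 : t < s := (Nat.pow_lt_pow_iff_right (by norm_num)).1 h4
    have h6 : 2 ^ (t + 1) ≤ 2 ^ s := Nat.pow_le_pow_right (by norm_num) h5
    rw [pow_succ] at h6
    omega
  rw [hzero] at e
  have h7 : ((Nat.card (Dn (2 ^ t - 1)) : ℕ) : ZMod 2) = 1 := by
    rw [ZMod.natCast_eq_one_iff_odd]
    exact hodd
  rw [h7] at e
  exact absurd e (by decide)

/-- There is a monotone (in particular hereditary) class of graphs whose speed is not
MC-finite. -/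
theorem result : ∃ C : GraphClass, MonotoneClass C ∧ ¬ MCFinite (Sp C) := by
  by_cases h : MCFinite (Sp Base)
  · exact ⟨Big, big_monotone, fun h2 => not_both ⟨h, h2⟩⟩
  · exact ⟨Base, base_monotone, h⟩

end Pool.Agent.Results.MP_337eac_co.MonotoneNotMCFinite
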